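import Pool.Agent.Helper17.DF.Geo

set_option autoImplicit false

/-!
DG-8: faces of a contraction.
-/

namespace Pool.Agent.Helper17.CT
open Function

section
variable {D : Type} [Finite D] {M : CMap D}

/-- a face has at most one outer dart -/
private lemma star_unique (hp : M.Planar) (γ : D → Fin 3) (hT : M.Tri γ) (X : D → Bool)
    (hX : M.VSet X) (h3 : M.bd X = 3) {s1 s2 : D} (h1 : X s1 = false) (h1' : X (M.a s1) = true)
    (h2 : X s2 = false) (h2' : X (M.a s2) = true) (hf : M.Face s1 s2) : s1 = s2 := by
  classical
  by_contra hne
  have : Fintype D := Fintype.ofFinite D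
  have hbij : Function.Bijective M.f := Finite.injective_iff_bijective.1 (f_inj' M)
  have hO : ∀ y, M.Face s1 y ↔ M.Face s1 (M.f y) := by
    intro y
    constructor
    · rintro ⟨n, hn⟩
      exact ⟨n + 1, by rw [iterate_succ_apply', hn]⟩
    · intro h
      exact face_trans M h (face_symm M ⟨1, rfl⟩)
  set O : Finset D := Finset.univ.filter fun y => M.Face s1 y with hOdef
  have hmO : ∀ y, y ∈ O ↔ M.Face s1 y := by
    intro y
    simp [hOdef]
  -- counting
  have c1 : (O.filter fun y => X (M.a y) = true).card = (O.filter fun y => X y = true).card := by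
    refine Finset.card_bijective M.f hbij ?_
    intro y
    simp only [Finset.mem_filter, hmO]
    rw [← hO y]
    have : X (M.f y) = X (M.a y) := hX (M.a y)
    rw [this]
  have c2 : (O.filter fun y => X (M.a y) = true).card =
      (O.filter fun y => X (M.a y) = true ∧ X y = true).card +
      (O.filter fun y => X (M.a y) = true ∧ X y = false).card := by
    rw [← Finset.card_union_of_disjoint]
    · congr 1
      ext y
      simp only [Finset.mem_filter, Finset.mem_union]
      cases X y <;> simp
    · rw [Finset.disjoint_filter]
      rintro y _ ⟨_, h⟩ ⟨_, h'⟩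
      rw [h] at h'
      exact absurd h' (by simp)
  have c3 : (O.filter fun y => X y = true).card =
      (O.filter fun y => X (M.a y) = true ∧ X y = true).card +
      (O.filter fun y => X y = true ∧ X (M.a y) = false).card := by
    rw [← Finset.card_union_of_disjoint]
    · congr 1
      ext y
      simp only [Finset.mem_filter, Finset.mem_union]
      cases X (M.a y) <;> simp
    · rw [Finset.disjoint_filter]
      rintro y _ ⟨h, _⟩ ⟨_, h'⟩
      rw [h] at h'
      exact absurd h' (by simp)
  have c4 : 2 ≤ (O.filter fun y => X (M.a y) = true ∧ X y = false).card := by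
    have hsub : ({s1, s2} : Finset D) ⊆ O.filter fun y => X (M.a y) = true ∧ X y = false := by
      intro y hy
      simp only [Finset.mem_insert, Finset.mem_singleton] at hy
      simp only [Finset.mem_filter, hmO]
      rcases hy with rfl | rfl
      · exact ⟨⟨0, rfl⟩, h1', h1⟩
      · exact ⟨hf, h2', h2⟩
    have := Finset.card_le_card hsub
    rwa [Finset.card_pair hne] at this
  have c5 : M.bd X = (Finset.univ.filter fun y => X y = true ∧ X (M.a y) = false).card := by
    rw [CMap.bd, Nat.card_eq_fintype_card, Fintype.card_subtype]
  have c6 : (O.filter fun y => X y = true ∧ X (M.a y) = false).card +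
      (O.filter fun y => X (M.a y) = true ∧ X y = false).card ≤
      (Finset.univ.filter fun y => X y = true ∧ X (M.a y) = false).card := by
    have hinj : Function.Injective M.a := fun x y h => by
      have := congrArg M.a h
      simpa only [M.a2] using this
    rw [← Finset.card_image_of_injective (O.filter fun y => X (M.a y) = true ∧ X y = false) hinj,
      ← Finset.card_union_of_disjoint]
    · refine Finset.card_le_card ?_
      intro y hy
      simp only [Finset.mem_union, Finset.mem_image, Finset.mem_filter, Finset.mem_univ,
        true_and] at hy ⊢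
      rcases hy with hy | ⟨z, hz, rfl⟩
      · exact hy.2
      · rw [M.a2]
        exact hz.2
    · rw [Finset.disjoint_left]
      intro y hy hy'
      simp only [Finset.mem_image, Finset.mem_filter, hmO] at hy hy'
      obtain ⟨z, hz, rfl⟩ := hy'
      exact not_face_a M hp γ hT z (face_trans M (face_symm M hz.1) hy.1)
  omega

/-- Faces of a contraction are the traces of the faces. -/
theorem contr_face (hp : M.Planar) (γ : D → Fin 3) (hT : M.Tri γ) (X : D → Bool)
    (hX : M.VSet X) (h3 : M.bd X = 3)
    (M' : CMap {d : D // X d = true ∨ X (M.a d) = true}) (h : M.IsContr X M')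
    (d d' : {d : D // X d = true ∨ X (M.a d) = true}) (hd : M.Face d.1 d'.1) : M'.Face d d' := by
  classical
  obtain ⟨n, hn⟩ := hd
  induction n using Nat.strong_induction_on generalizing d with
  | _ n ih =>
  have hstep : M'.Face (M'.f d) d' → M'.Face d d' := by
    rintro ⟨m, hm⟩
    exact ⟨m + 1, by rw [iterate_succ_apply]; exact hm⟩
  rcases Nat.eq_zero_or_pos n with rfl | hn0
  · exact ⟨0, Subtype.ext hn⟩
  by_cases hXa : X (M.a d.1) = true
  · apply hstep
    have hval : (M'.f d).1 = M.f d.1 := by
      have h1 : (M'.s (M'.a d)).1 = M.s (M'.a d).1 := h.hs (M'.a d) (by rw [h.ha]; exact hXa)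
      show (M'.s (M'.a d)).1 = _
      rw [h1, h.ha]
      rfl
    refine ih (n - 1) (by omega) (M'.f d) ?_
    rw [hval, ← iterate_succ_apply]
    have : (n - 1).succ = n := by omega
    rw [this]
    exact hn
  · have hXa' : X (M.a d.1) = false := by simpa using hXa
    have hXd : X d.1 = true := by
      rcases d.2 with h1 | h1
      · exact h1
      · exact absurd h1 hXa
    have hex : ∃ j, 1 ≤ j ∧ (X ((M.f)^[j] d.1) = true ∨ X (M.a ((M.f)^[j] d.1)) = true) :=
      ⟨n, hn0, by rw [hn]; exact d'.2⟩
    set j := Nat.find hex with hj
    obtain ⟨hj1, hjD⟩ := Nat.find_spec hex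
    have hjn : j ≤ n := Nat.find_min' hex ⟨hn0, by rw [hn]; exact d'.2⟩
    have hy : X (M.a ((M.f)^[j - 1] d.1)) = false := by
      rcases Nat.eq_or_lt_of_le hj1 with h1 | h1
      · rw [← hj] at h1
        rw [← h1]
        exact hXa'
      · rw [← hj] at h1
        have h2 := Nat.find_min hex (m := j - 1) (by omega)
        by_contra h4
        apply h2
        refine ⟨by omega, Or.inr ?_⟩
        simpa using h4
    have hXj : X ((M.f)^[j] d.1) = false := by
      have h1 : (M.f)^[j] d.1 = M.f ((M.f)^[j - 1] d.1) := by
        have h2 : j = (j - 1) + 1 := by omega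
        conv_lhs => rw [h2]
        exact iterate_succ_apply' _ _ _
      rw [h1]
      have h2 : X (M.f ((M.f)^[j - 1] d.1)) = X (M.a ((M.f)^[j - 1] d.1)) := hX _
      rw [h2, hy]
    have hXaj : X (M.a ((M.f)^[j] d.1)) = true := by
      rcases hjD with h1 | h1
      · rw [hXj] at h1
        exact absurd h1 (by simp)
      · exact h1
    -- the next dart in the contraction
    have hout : ∀ e : {d : D // X d = true ∨ X (M.a d) = true}, X e.1 = false →
        X (M'.s e).1 = false := by
      intro e he
      by_contra h1
      have h1' : X (M'.s e).1 = true := by simpa using h1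
      have h2 : X (M'.s (M'.s e)).1 = true := by rw [h.hs _ h1', hX]; exact h1'
      have h4 : X (M'.s (M'.s (M'.s e))).1 = true := by rw [h.hs _ h2, hX]; exact h2
      rw [M'.s3, he] at h4
      exact absurd h4 (by simp)
    have hXf : X (M'.f d).1 = false := hout (M'.a d) (by rw [h.ha]; exact hXa')
    have hXaf : X (M.a (M'.f d).1) = true := by
      rcases (M'.f d).2 with h1 | h1
      · rw [hXf] at h1
        exact absurd h1 (by simp)
      · exact h1
    obtain ⟨m, _, hm⟩ := h.ret d
    have heq : (M'.f d).1 = (M.f)^[j] d.1 := by
      refine star_unique hp γ hT X hX h3 hXf hXaf hXj hXaj ?_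
      exact face_trans M (face_symm M ⟨m, hm.symm⟩) ⟨j, rfl⟩
    apply hstep
    refine ih (n - j) (by omega) (M'.f d) ?_
    rw [heq, ← iterate_add_apply]
    have : n - j + j = n := by omega
    rw [this]
    exact hn

end

end Pool.Agent.Helper17.CT
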