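import Pool.Agent.Helper25.DG.Mirror

set_option autoImplicit false

/-!
DG-6b: wheels up to rotation and reflection.

The table of the lists in `bra` is encoded by three bit masks (bit `code l` for the list `l`).
-/

namespace Pool.Agent.Helper17.CT
open Function

/-- rotation of the neighbour lengths -/
private def braRot (c r : ℕ) (n : ℕ → ℕ) : List ℕ := (List.range c).map fun i => n ((r + i) % c)

/-- reflection of the neighbour lengths -/
private def braRef (c r : ℕ) (n : ℕ → ℕ) : List ℕ :=
  (List.range c).map fun i => n ((c - (r + i) % c) % c)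

private def braCode : List ℕ → ℕ
  | [] => 0
  | x :: l => Nat.add (Nat.sub x 4) (Nat.mul 3 (braCode l))

private def braBit (m : ℕ) (l : List ℕ) : Bool :=
  Nat.beq (Nat.land (Nat.shiftRight m (braCode l)) 1) 1

private def braMask (c : ℕ) : ℕ :=
  if c = 4 then 2235682133463625036201985
  else if c = 5 then 13069812397956545056844460452896257546550920808953614312606503453440606209
  else 493232284857301656571574814390501804362960628889188932944189114518070676665171623089655698571113544925828501682044666184015740125163362322409012089550969283152132717887675880342014836255335519955551620852097677619363841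

/-- one of the rotated or reflected lists is in the table -/
private def braAny (c m : ℕ) (n : ℕ → ℕ) : ℕ → Bool
  | 0 => false
  | r + 1 => cond (braBit m (braRot c r n)) true
      (cond (braBit m (braRef c r n)) true (braAny c m n r))

private lemma braAny_spec (c m : ℕ) (n : ℕ → ℕ) : ∀ r, braAny c m n r = true →
    ∃ r' < r, braBit m (braRot c r' n) = true ∨ braBit m (braRef c r' n) = true
  | 0, h => by simp [braAny] at h
  | r + 1, h => by
    rw [braAny] at h
    cases h1 : braBit m (braRot c r n) with
    | true => exact ⟨r, by omega, Or.inl h1⟩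
    | false =>
      cases h2 : braBit m (braRef c r n) with
      | true => exact ⟨r, by omega, Or.inr h2⟩
      | false =>
        rw [h1, h2] at h
        obtain ⟨r', hr', h'⟩ := braAny_spec c m n r h
        exact ⟨r', by omega, h'⟩

/-- all lists of length `c` with entries 4, 5, 6 -/
private def braAllL : ℕ → List (List ℕ)
  | 0 => [[]]
  | c + 1 => (braAllL c).flatMap fun l => [4 :: l, 5 :: l, 6 :: l]

private lemma mem_braAllL : ∀ l : List ℕ, (∀ x ∈ l, x = 4 ∨ x = 5 ∨ x = 6) →
    l ∈ braAllL l.length
  | [], _ => by simp [braAllL]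
  | x :: l, h => by
    have h1 := mem_braAllL l (fun y hy => h y (List.mem_cons_of_mem _ hy))
    rw [List.length_cons, braAllL, List.mem_flatMap]
    refine ⟨l, h1, ?_⟩
    rcases h x (List.mem_cons_self ..) with rfl | rfl | rfl <;> simp

/-- the sum of the differences to 6 -/
private def braCnt : List ℕ → ℕ
  | [] => 0
  | x :: l => Nat.add (Nat.sub 6 x) (braCnt l)

private def braTab (c m : ℕ) (ex : List ℕ → Bool) : List (List ℕ) → Bool
  | [] => true
  | l :: t => cond (cond (ex l) true (braAny c m (getN l) c)) (braTab c m ex t) false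

private lemma braTab_spec (c m : ℕ) (ex : List ℕ → Bool) :
    ∀ L : List (List ℕ), braTab c m ex L = true → ∀ l ∈ L,
      ex l = true ∨ braAny c m (getN l) c = true
  | [], _, l, hl => by simp at hl
  | l' :: t, h, l, hl => by
    rw [braTab] at h
    cases h1 : cond (ex l') true (braAny c m (getN l') c) with
    | false =>
      rw [h1] at h
      exact absurd h (by simp)
    | true =>
      rw [h1] at h
      rcases List.mem_cons.1 hl with rfl | hl
      · cases h2 : ex l with
        | true => exact Or.inl rfl
        | false =>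
          rw [h2] at h1
          exact Or.inr h1
      · exact braTab_spec c m ex t h l hl

private lemma braTable4 : braTab 4 (braMask 4) (fun _ => false) (braAllL 4) = true := by
  decide +kernel

private lemma braTable5 : braTab 5 (braMask 5) (fun _ => false) (braAllL 5) = true := by
  decide +kernel

private lemma braTable6 : braTab 6 (braMask 6) (fun l => Nat.ble (braCnt l) 1) (braAllL 6) = true := by
  decide +kernel

private lemma braMem4 : ∀ l ∈ braAllL 4, braBit (braMask 4) l = true → (4, l) ∈ bra := by
  decide +kernel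

private lemma braMem5 : ∀ l ∈ braAllL 5, braBit (braMask 5) l = true → (5, l) ∈ bra := by
  decide +kernel

private lemma braMem6 : ∀ l ∈ braAllL 6, braBit (braMask 6) l = true → (6, l) ∈ bra := by
  decide +kernel

private lemma getN_map (f : ℕ → ℕ) (c i : ℕ) (hi : i < c) :
    getN ((List.range c).map f) i = f i := by
  have h1 : ∀ (l : List ℕ) (i : ℕ), getN l i = l.getD i 0 := by
    intro l
    induction l with
    | nil => intro i; rfl
    | cons x l ih =>
      intro i
      cases i with
      | zero => rfl
      | succ i => exact ih i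
  rw [h1]
  simp [List.getD_eq_getElem?_getD, hi]

section
variable {D : Type} {M : CMap D}

/-- the neighbour lengths -/
private noncomputable def braN (M : CMap D) (d : D) (i : ℕ) : ℕ :=
  minimalPeriod M.f (M.a ((M.f)^[i] d))

private lemma braN_mod (d : D) (i : ℕ) : braN M d (i % minimalPeriod M.f d) = braN M d i := by
  unfold braN
  rw [iterate_mod_minimalPeriod_eq]

variable [Finite D]

private lemma braRot_false (hG : ∀ p ∈ bra, Good p.1 p.2) (hp : M.Planar) (γ : D → Fin 3)
    (hT : M.Tri γ) (h4 : M.Cyc4) (d : D) {c : ℕ} (hc : minimalPeriod M.f d = c) (hc3 : 3 ≤ c)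
    (r : ℕ) (hm : (c, braRot c r (braN M d)) ∈ bra) : False := by
  apply good_false M hp γ hT h4 c _ (hG _ hm) hc3 ((M.f)^[r] d) (by rw [period_shift, hc])
  intro i hi
  rw [braRot, getN_map _ _ _ hi, ← hc, braN_mod, braN, ← iterate_add_apply, add_comm]

private lemma braRef_false (hG : ∀ p ∈ bra, Good p.1 p.2) (hp : M.Planar) (γ : D → Fin 3)
    (hT : M.Tri γ) (h4 : M.Cyc4) (d : D) {c : ℕ} (hc : minimalPeriod M.f d = c) (hc3 : 3 ≤ c)
    (r : ℕ) (hm : (c, braRef c r (braN M d)) ∈ bra) : False := by
  have hc' : minimalPeriod M.mirror.f (M.a d) = c := by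
    rw [mirror_period, M.a2, hc]
  apply good_false M.mirror (mirror_planar hp) γ (mirror_tri γ hT) (mirror_cyc4 h4) c _ (hG _ hm)
    hc3 ((M.mirror.f)^[r] (M.a d)) (by rw [period_shift, hc'])
  intro i hi
  rw [braRef, getN_map _ _ _ hi, ← iterate_add_apply, add_comm i r]
  have h1 : (M.mirror.f)^[r + i] (M.a d) = M.a ((M.f)^[c - (r + i) % c] d) := by
    have h2 : (M.mirror.f)^[(r + i) % c] (M.a d) = (M.mirror.f)^[r + i] (M.a d) := by
      rw [← hc']
      exact iterate_mod_minimalPeriod_eq
    rw [← h2, mirror_iter (M.a d) ((r + i) % c) (by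
      rw [M.a2, hc]
      exact (Nat.mod_lt _ (by omega)).le), M.a2, hc]
  rw [h1]
  have h3 : M.mirror.a (M.a ((M.f)^[c - (r + i) % c] d)) = (M.f)^[c - (r + i) % c] d := M.a2 _
  rw [h3, mirror_period]
  have h4' : braN M d ((c - (r + i) % c) % c) = braN M d (c - (r + i) % c) := by
    rw [← hc]
    exact braN_mod d _
  rw [h4']
  rfl

private lemma bra_core (hG : ∀ p ∈ bra, Good p.1 p.2) (hp : M.Planar) (γ : D → Fin 3)
    (hT : M.Tri γ) (h4 : M.Cyc4) (d : D) {c : ℕ} (hc : minimalPeriod M.f d = c) (hc3 : 3 ≤ c)
    (h46 : ∀ i, braN M d i = 4 ∨ braN M d i = 5 ∨ braN M d i = 6) (ex : List ℕ → Bool)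
    (htab : braTab c (braMask c) ex (braAllL c) = true)
    (hmem : ∀ l ∈ braAllL c, braBit (braMask c) l = true → (c, l) ∈ bra) :
    ex (braRot c 0 (braN M d)) = true := by
  have hall : ∀ g : ℕ → ℕ, (List.range c).map (fun i => braN M d (g i)) ∈ braAllL c := by
    intro g
    have h1 := mem_braAllL ((List.range c).map (fun i => braN M d (g i))) (by
      intro x hx
      obtain ⟨i, _, rfl⟩ := List.mem_map.1 hx
      exact h46 _)
    rwa [List.length_map, List.length_range] at h1
  rcases braTab_spec c _ ex _ htab _ (hall fun i => (0 + i) % c) with h | h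
  · exact h
  · exfalso
    obtain ⟨r, hr, h⟩ := braAny_spec _ _ _ _ h
    have hget : ∀ k < c, getN ((List.range c).map fun i => braN M d ((0 + i) % c)) k =
        braN M d k := by
      intro k hk
      rw [getN_map _ _ _ hk, zero_add, Nat.mod_eq_of_lt hk]
    have e1 : braRot c r (getN ((List.range c).map fun i => braN M d ((0 + i) % c))) =
        braRot c r (braN M d) := by
      unfold braRot
      refine List.map_congr_left fun i _ => ?_
      exact hget _ (Nat.mod_lt _ (by omega))
    have e2 : braRef c r (getN ((List.range c).map fun i => braN M d ((0 + i) % c))) =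
        braRef c r (braN M d) := by
      unfold braRef
      refine List.map_congr_left fun i _ => ?_
      exact hget _ (Nat.mod_lt _ (by omega))
    rw [e1, e2] at h
    rcases h with h | h
    · exact braRot_false hG hp γ hT h4 d hc hc3 r (hmem _ (hall _) h)
    · exact braRef_false hG hp γ hT h4 d hc hc3 r (hmem _ (hall _) h)

/-- As `local7_of` (CT/Wheel), with rotations and reflections. -/
theorem local7_bra (hG : ∀ p ∈ bra, Good p.1 p.2) (hp : M.Planar) (γ : D → Fin 3)
    (hT : M.Tri γ) (h4 : M.Cyc4) (hD : 12 < Nat.card D) (d : D)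
    (hd : minimalPeriod M.f d ≤ 5) : ∃ i, 7 ≤ minimalPeriod M.f (M.a ((M.f)^[i] d)) := by
  by_contra hcon
  push Not at hcon
  have hc3' : M.Con3 := con3_of_tri M γ hT
  have hge : ∀ x, 4 ≤ minimalPeriod M.f x := fun x => face_ge M hc3' h4 hD x
  have h46 : ∀ i, braN M d i = 4 ∨ braN M d i = 5 ∨ braN M d i = 6 := by
    intro i
    have h1 := hge (M.a ((M.f)^[i] d))
    have h2 := hcon i
    unfold braN
    omega
  have h1 := hge d
  rcases (show minimalPeriod M.f d = 4 ∨ minimalPeriod M.f d = 5 by omega) with h | h
  · have h2 := bra_core hG hp γ hT h4 d h (by omega) h46 _ braTable4 braMem4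
    exact absurd h2 (by simp)
  · have h2 := bra_core hG hp γ hT h4 d h (by omega) h46 _ braTable5 braMem5
    exact absurd h2 (by simp)

/-- A hexagon with all neighbours of length at most 6 has at most one neighbour of length at most 5,
which is a pentagon. -/
theorem hub6_bra (hG : ∀ p ∈ bra, Good p.1 p.2) (hp : M.Planar) (γ : D → Fin 3)
    (hT : M.Tri γ) (h4 : M.Cyc4) (hD : 12 < Nat.card D) (d : D)
    (hd : minimalPeriod M.f d = 6) (hle : ∀ i, minimalPeriod M.f (M.a ((M.f)^[i] d)) ≤ 6)
    (i j : ℕ) (hi : i < 6) (hj : j < 6) (h5 : minimalPeriod M.f (M.a ((M.f)^[i] d)) ≤ 5)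
    (h5' : minimalPeriod M.f (M.a ((M.f)^[j] d)) ≤ 5) :
    i = j ∧ minimalPeriod M.f (M.a ((M.f)^[i] d)) = 5 := by
  have hc3' : M.Con3 := con3_of_tri M γ hT
  have hge : ∀ x, 4 ≤ minimalPeriod M.f x := fun x => face_ge M hc3' h4 hD x
  have h46 : ∀ i, braN M d i = 4 ∨ braN M d i = 5 ∨ braN M d i = 6 := by
    intro i
    have h1 := hge (M.a ((M.f)^[i] d))
    have h2 := hle i
    unfold braN
    omega
  have h1 := bra_core hG hp γ hT h4 d hd (by omega) h46 _ braTable6 braMem6
  have h2 : braCnt (braRot 6 0 (braN M d)) = (6 - braN M d 0) + ((6 - braN M d 1) +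
      ((6 - braN M d 2) + ((6 - braN M d 3) + ((6 - braN M d 4) + ((6 - braN M d 5) + 0))))) := rfl
  have h3 := Nat.le_of_ble_eq_true h1
  rw [h2] at h3
  change braN M d i ≤ 5 at h5
  change braN M d j ≤ 5 at h5'
  change i = j ∧ braN M d i = 5
  have h6 : ∀ i, 4 ≤ braN M d i := fun i => hge _
  have hi4 := h6 i
  interval_cases i <;> interval_cases j <;> omega

end

end Pool.Agent.Helper17.CT
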